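import Pool.Agent.Lib.MP_938ce2_ag_H7f.Klein
import Pool.Agent.Lib.MP_938ce2_ag_h85c.Base420

/-!
The classes `IsAlgG` and `Fano` are stable under raising the degree; fourfolds in all degrees
divisible by `420 m`.
-/

set_option autoImplicit false
set_option linter.style.haveILetI false
set_option linter.unusedSectionVars false

open Finset

namespace Pool.Agent.Lib.MP_938ce2_ag_h7s

open Pool.Agent.Lib.MP_938ce2_ag_h99 Pool.Agent.Lib.MP_938ce2_ag_H7f
open Pool.Agent.Lib.MP_938ce2_ag_H7e Pool.Agent.Lib.MP_938ce2_ag_h6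

variable {m M : ℕ} [NeZero m] [NeZero M]

theorem Fano.lift (h : m ∣ M) {s : Multiset (ZMod m)} (hs : Fano s) : Fano (s.map (jj h)) := by
  obtain ⟨k, a, g, μ, c, d, hk, hs, hg, h1, h2, h3, h4, h5, h6⟩ := hs
  refine ⟨k, fun i => jj h (a i), g, μ, c, d, hk, ?_, hg, ?_, ?_, h3, h4, h5, h6⟩
  · rw [hs, Multiset.map_map]
    rfl
  · intro b
    rw [← map_sum, h1 b, map_zero]
  · intro j
    have e : ∀ i, (μ j i : ZMod M) * jj h (a i) = jj h ((μ j i : ZMod m) * a i) := by
      intro i
      rw [← nsmul_eq_mul, ← nsmul_eq_mul, map_nsmul]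
    rw [sum_congr rfl fun i _ => e i, ← map_sum, h2 j, map_zero]

/-- the set of the solutions of `p x = p a` is stable under raising the degree -/
theorem aoki_lift (h : m ∣ M) {p : ℕ} (hp : p ∣ m) (a : ZMod m) :
    (univ.filter fun x : ZMod m => (p : ZMod m) * x = (p : ZMod m) * a).val.map (jj h) =
      (univ.filter fun x : ZMod M => (p : ZMod M) * x = (p : ZMod M) * jj h a).val := by
  classical
  have hm0 : 0 < m := Nat.pos_of_ne_zero (NeZero.ne m)
  have hM0 : 0 < M := Nat.pos_of_ne_zero (NeZero.ne M)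
  have e1 : (univ.filter fun x : ZMod m => (p : ZMod m) * x = (p : ZMod m) * a).val.map (jj h) =
      ((univ.filter fun x : ZMod m => (p : ZMod m) * x = (p : ZMod m) * a).map
        ⟨jj h, jj_injective h⟩).val := rfl
  rw [e1]
  congr 1
  ext x
  simp only [mem_map, mem_filter, mem_univ, true_and, Function.Embedding.coeFn_mk]
  constructor
  · rintro ⟨y, hy, rfl⟩
    rw [← nsmul_eq_mul, ← nsmul_eq_mul, ← map_nsmul, ← map_nsmul, nsmul_eq_mul, nsmul_eq_mul, hy]
  · intro hx
    -- `x - jj a` is killed by `p`, hence by `m`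
    have h1 : (p : ZMod M) * (x - jj h a) = 0 := by rw [mul_sub, hx, sub_self]
    have h2 : (m : ZMod M) * (x - jj h a) = 0 := by
      obtain ⟨q, hq⟩ := hp
      have : ((m : ℕ) : ZMod M) = (q : ZMod M) * (p : ZMod M) := by
        rw [hq]
        push_cast
        ring
      rw [this, mul_assoc, h1, mul_zero]
    obtain ⟨y, hy⟩ : ∃ y : ZMod m, jj h y = x - jj h a := by
      have h3 : ((m * (x - jj h a).val : ℕ) : ZMod M) = 0 := by
        push_cast
        rw [ZMod.natCast_zmod_val]
        exact h2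
      rw [ZMod.natCast_eq_zero_iff] at h3
      have h4 : M / m ∣ (x - jj h a).val := by
        have h5 : m * (M / m) ∣ m * (x - jj h a).val := by
          rw [Nat.mul_div_cancel' h]
          exact h3
        exact Nat.dvd_of_mul_dvd_mul_left hm0 h5
      obtain ⟨c, hc⟩ := h4
      refine ⟨(c : ZMod m), ?_⟩
      rw [jj_natCast, ← hc, ZMod.natCast_zmod_val]
    refine ⟨y + a, ?_, ?_⟩
    · apply jj_injective h
      rw [← nsmul_eq_mul, ← nsmul_eq_mul, map_nsmul, map_nsmul, nsmul_eq_mul, nsmul_eq_mul, map_add,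
        hy, sub_add_cancel]
      exact hx
    · rw [map_add, hy, sub_add_cancel]

theorem IsAlgG.lift {G : Multiset (ZMod m) → Prop} {G' : Multiset (ZMod M) → Prop} (h : m ∣ M)
    (hG : ∀ s, G s → G' (s.map (jj h))) {s : Multiset (ZMod m)} (hs : IsAlgG G s) :
    IsAlgG G' (s.map (jj h)) := by
  induction hs with
  | low s h1 h2 => exact IsAlgG.low _ (h1.lift h) (by rwa [Multiset.card_map])
  | base s h1 h2 => exact IsAlgG.base _ (h1.lift h) (hG s h2)
  | aoki p a h1 h2 h3 h4 =>
    rw [Multiset.map_add, aoki_lift h h3, Multiset.map_singleton, map_neg]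
    have e : jj h ((p : ZMod m) * a) = (p : ZMod M) * jj h a := by
      rw [← nsmul_eq_mul, ← nsmul_eq_mul, map_nsmul]
    rw [e]
    refine IsAlgG.aoki p (jj h a) h1 h2 (h3.trans h) ?_
    rw [← e]
    intro h0
    exact h4 (jj_injective h (by rw [h0, map_zero]))
  | join s t _ _ ih1 ih2 =>
    rw [Multiset.map_add]
    exact IsAlgG.join _ _ ih1 ih2
  | cut s b h1 _ ih =>
    refine IsAlgG.cut _ (jj h b) ?_ ?_
    · intro h0
      exact h1 (jj_injective h (by rw [h0, map_zero]))
    · rw [Multiset.map_add] at ih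
      have e : Multiset.map (jj h) ({b, -b} : Multiset (ZMod m)) = {jj h b, -jj h b} := by
        simp
      rwa [e] at ih

/-- fourfolds of degree not divisible by `110`, in all degrees divisible by `420 m` -/
theorem four (hmM : 420 * m ∣ M) (hm : m ∣ M) {s : Multiset (ZMod m)} (hs : IsTate s)
    (h6 : s.card ≤ 6) (h110 : ¬ 110 ∣ m) : IsAlgG Fano (s.map (jj hm)) := by
  have hm' : m ∣ 420 * m := Dvd.intro_left _ rfl
  haveI : NeZero (420 * m) := ⟨mul_ne_zero (by norm_num) (NeZero.ne m)⟩
  have base : Base := fun _ _ h1 h2 G h3 h4 h5 =>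
    Pool.Agent.Lib.MP_938ce2_ag_h85c.base420 h1 h2 G h3 h4 h5
  rcases fourfold base hm' hs h6 with h | ⟨h, _⟩
  · have h1 := IsAlgG.lift (G' := Fano) hmM (fun s hs => Fano.lift hmM hs) h
    have e : (s.map (jj hm')).map (jj hmM) = s.map (jj hm) := by
      rw [Multiset.map_map]
      apply Multiset.map_congr rfl
      intro a _
      rw [Function.comp_apply]
      conv_lhs => rw [← ZMod.natCast_zmod_val a]
      conv_rhs => rw [← ZMod.natCast_zmod_val a]
      rw [jj_natCast, jj_natCast, jj_natCast]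
      congr 1
      obtain ⟨c, hc⟩ := hmM
      have hm0 : 0 < m := Nat.pos_of_ne_zero (NeZero.ne m)
      have e1 : M / (420 * m) = c := by
        rw [hc, Nat.mul_div_cancel_left _ (by positivity)]
      have e2 : 420 * m / m = 420 := Nat.mul_div_cancel _ hm0
      have e3 : M / m = 420 * c := by
        rw [hc, show 420 * m * c = m * (420 * c) by ring, Nat.mul_div_cancel_left _ hm0]
      rw [e1, e2, e3]
      ring
    rwa [e] at h1
  · exact absurd h h110

end Pool.Agent.Lib.MP_938ce2_ag_h7s
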